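import Mathlib
import Pool.Agent.Run7.h632.CA.Defs

set_option autoImplicit false

namespace Pool.Agent.Run7.h58.CA

open Pool.Agent.Run7.h632.CA

theorem t_chain : S_chain := by
  intro E _ _ M hM hroot hbot
  -- additive version
  let N : ℕ → Submodule ℤ (Additive E) := fun c => AddSubgroup.toIntSubmodule (Subgroup.toAddSubgroup (M c))
  have hfg : AddGroup.FG (Additive E) := inferInstance
  haveI : Module.Finite ℤ (Additive E) := Module.Finite.iff_addGroup_fg.2 hfg
  have hmem : ∀ c (x : E), Additive.ofMul x ∈ N c ↔ x ∈ M c := by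
    intro c x
    rfl
  have hanti : Antitone N := by
    intro a b hab x hx
    have := hM hab ((hmem b (Additive.toMul x)).1 hx)
    exact (hmem a (Additive.toMul x)).2 this
  -- minimal rank
  have hne : (Set.range fun c => Module.finrank ℤ (N c)).Nonempty := ⟨_, 0, rfl⟩
  obtain ⟨c0, hc0⟩ : ∃ c0, Module.finrank ℤ (N c0) = sInf (Set.range fun c => Module.finrank ℤ (N c)) :=
    Nat.sInf_mem hne
  have hmin : ∀ c, Module.finrank ℤ (N c0) ≤ Module.finrank ℤ (N c) := by
    intro c
    rw [hc0]
    exact Nat.sInf_le ⟨c, rfl⟩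
  refine ⟨c0, ?_⟩
  have key : ∀ c, N c0 ≤ N c := by
    intro c
    rcases le_total c c0 with h | h
    · exact hanti h
    · have hle : N c ≤ N c0 := hanti h
      have hrk : Module.finrank ℤ (N c) = Module.finrank ℤ (N c0) :=
        le_antisymm (Submodule.finrank_mono hle) (hmin c)
      intro x hx
      -- quotient
      let Q : Submodule ℤ (N c0) := (N c).comap (N c0).subtype
      have hQ : Module.finrank ℤ Q = Module.finrank ℤ (N c) :=
        (Submodule.comapSubtypeEquivOfLe hle).finrank_eq
      have h1 := Submodule.finrank_quotient_add_finrank Q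
      have h2 : Module.finrank ℤ (N c0 ⧸ Q) = 0 := by omega
      have h3 : Module.rank ℤ (N c0 ⧸ Q) = 0 := by
        rw [← Module.finrank_eq_rank, h2]; simp
      rw [rank_eq_zero_iff] at h3
      obtain ⟨a, ha, hax⟩ := h3 (Submodule.Quotient.mk ⟨x, hx⟩)
      rw [← Submodule.Quotient.mk_smul, Submodule.Quotient.mk_eq_zero] at hax
      have h4 : a • x ∈ N c := hax
      have h5 : (a.natAbs : ℕ) • x ∈ N c := by
        rcases Int.natAbs_eq a with h | h
        · rw [h] at h4
          rwa [natCast_zsmul] at h4
        · rw [h, neg_smul] at h4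
          have := (N c).neg_mem h4
          rwa [neg_neg, natCast_zsmul] at this
      have h6 : Additive.toMul x ∈ M 0 := (hmem 0 (Additive.toMul x)).1 (hanti (Nat.zero_le c0) hx)
      have h7 := hroot c (Additive.toMul x) h6 a.natAbs (Int.natAbs_pos.2 ha) ((hmem c _).1 h5)
      exact (hmem c _).2 h7
  rw [eq_bot_iff]
  intro x hx
  rw [← hbot, Subgroup.mem_iInf]
  intro c
  exact (hmem c x).1 (key c ((hmem c0 x).2 hx))

end Pool.Agent.Run7.h58.CA
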