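import Mathlib
import Pool.Agent.Run7.h632.CA.Defs
import Pool.Agent.H129R3.Magnus

set_option autoImplicit false

namespace Pool.Agent.Run7.h58.CA

open Pool.Agent.Run7.h632.CA Pool.Agent.H129R3 MonoidAlgebra

/-- the trivial action of the integers -/
@[reducible] def trivAct (n : ℕ) : AddAction ℤ (Fin n) where
  vadd _ j := j
  zero_vadd _ := rfl
  add_vadd _ _ _ := rfl

lemma inj_map (n : ℕ) : letI := trivAct n;
    ∃ R : T n →+* MonoidAlgebra ℚ (WMon (Fin n)),
      ∀ x : MonoidAlgebra ℚ (F n), PowerSeries.map R (mg n x) = mag ℚ x := by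
  letI := trivAct n
  let e : FreeMonoid (Fin n) →* WMon (Fin n) := FreeMonoid.lift (fun i => (⟨[i], 0⟩ : WMon (Fin n)))
  let R : T n →+* MonoidAlgebra ℚ (WMon (Fin n)) := MonoidAlgebra.mapDomainRingHom ℚ e
  have hX : ∀ i : Fin n, R (X i) = zeta ℚ i := by
    intro i
    simp [R, X, zeta, e]
  have hmu : (PowerSeries.map R : P n →* _).comp (mu n) = magHom ℚ := by
    ext i : 1
    simp [mu, magHom, Pool.Agent.Run7.h632.CA.U, Pool.Agent.H129R3.U, hX]
  refine ⟨R, fun x => ?_⟩
  have key : (PowerSeries.map R).comp (mg n : MonoidAlgebra ℚ (F n) →+* P n) =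
      ((mag ℚ : MonoidAlgebra ℚ (F n) →ₐ[ℚ] _) : MonoidAlgebra ℚ (F n) →+* _) := by
    refine MonoidAlgebra.ringHom_ext ?_ ?_
    · intro b
      have h1 : mg n (MonoidAlgebra.single 1 b) = b • (1 : P n) := by
        simp [mg]
      have h2 : mag ℚ (MonoidAlgebra.single (1 : FreeGroup (Fin n)) b) = b • 1 := by
        rw [mag_single, map_one]
      show PowerSeries.map R (mg n (MonoidAlgebra.single 1 b)) = mag ℚ (MonoidAlgebra.single 1 b)
      rw [h1, h2]
      ext1 j
      have h5 : PowerSeries.coeff j (b • (1 : P n)) = b • PowerSeries.coeff j (1 : P n) := rfl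
      have h6 : PowerSeries.coeff j (b • (1 : PowerSeries (MonoidAlgebra ℚ (WMon (Fin n))))) =
        b • PowerSeries.coeff j (1 : PowerSeries (MonoidAlgebra ℚ (WMon (Fin n)))) := rfl
      rw [PowerSeries.coeff_map, h5, h6, PowerSeries.coeff_one, PowerSeries.coeff_one]
      split_ifs with h
      · have h3 : (b • (1 : T n)) = MonoidAlgebra.single 1 b := by
          rw [MonoidAlgebra.one_def, MonoidAlgebra.smul_single]; simp
        have h4 : (b • (1 : MonoidAlgebra ℚ (WMon (Fin n)))) = MonoidAlgebra.single 1 b := by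
          rw [MonoidAlgebra.one_def, MonoidAlgebra.smul_single]; simp
        rw [h3, h4]
        simp [R]
      · simp
    · intro g
      have := DFunLike.congr_fun hmu g
      simp [mg, mag_single]
      exact this
  exact DFunLike.congr_fun key x

theorem t_inj : S_inj := by
  intro n
  letI := trivAct n
  obtain ⟨R, hR⟩ := inj_map n
  intro x y hxy
  apply mag_injective ℚ
  rw [← hR, ← hR, hxy]

end Pool.Agent.Run7.h58.CA
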