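import Mathlib
import Pool.Agent.Run7.h632.CA.Defs

set_option autoImplicit false

namespace Pool.Agent.Run7.h58.CA

open Pool.Agent.Run7.h632.CA MonoidAlgebra

lemma mg_single (n : ℕ) (g : F n) : mg n (MonoidAlgebra.single g 1) = mu n g := by
  simp [mg]

theorem t_inner (hinj : S_inj) : S_inner := by
  intro n φ f hf hcomm
  -- the relation in the group algebra
  have h1 : ∀ g : F n, MonoidAlgebra.single (φ g) 1 * f = f * MonoidAlgebra.single g 1 := by
    intro g
    apply hinj n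
    rw [map_mul, map_mul, mg_single, mg_single]
    exact hcomm g
  have h2 : ∀ g s : F n, f.coeff (φ g * s * g⁻¹) = f.coeff s := by
    intro g s
    have h := congrArg (fun x => x.coeff (φ g * s)) (h1 g)
    rw [MonoidAlgebra.coeff_single_mul_apply, MonoidAlgebra.coeff_mul_single_apply] at h
    simpa using h.symm
  obtain ⟨s, hs⟩ : ∃ s, f.coeff s ≠ 0 := by
    by_contra hcon
    push Not at hcon
    apply hf
    ext s
    simpa using hcon s
  refine ⟨s, ?_⟩
  apply MulEquiv.ext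
  intro g
  rw [MulAut.conj_apply]
  have h3 : ∀ k : ℕ, f.coeff (φ g ^ k * s * (g ^ k)⁻¹) = f.coeff s := by
    intro k
    have := h2 (g ^ k) s
    rwa [map_pow] at this
  have hmem : ∀ k : ℕ, φ g ^ k * s * (g ^ k)⁻¹ ∈ f.coeff.support := by
    intro k
    rw [Finsupp.mem_support_iff, h3 k]
    exact hs
  obtain ⟨i, j, hij, he⟩ := Finite.exists_ne_map_eq_of_infinite
    (fun k : ℕ => (⟨φ g ^ k * s * (g ^ k)⁻¹, hmem k⟩ : f.coeff.support))
  have he' : φ g ^ i * s * (g ^ i)⁻¹ = φ g ^ j * s * (g ^ j)⁻¹ := congrArg Subtype.val he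
  clear he
  wlog hlt : i < j generalizing i j
  · exact this j i hij.symm he'.symm (lt_of_le_of_ne (not_lt.1 hlt) hij.symm)
  obtain ⟨k, rfl⟩ := Nat.exists_eq_add_of_lt hlt
  have h4 : s * g ^ (k + 1) * s⁻¹ = φ g ^ (k + 1) := by
    have h5 : φ g ^ (i + k + 1) = φ g ^ i * φ g ^ (k + 1) := by rw [← pow_add]; ring_nf
    have h6 : g ^ (i + k + 1) = g ^ (k + 1) * g ^ i := by rw [← pow_add]; ring_nf
    rw [h5, h6, mul_inv_rev] at he'
    have h7 : s * (g ^ i)⁻¹ = φ g ^ (k + 1) * s * ((g ^ i)⁻¹ * (g ^ (k + 1))⁻¹) := by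
      have := congrArg (fun x => (φ g ^ i)⁻¹ * x) he'
      simpa [mul_assoc] using this
    have h8 : (g ^ i)⁻¹ * (g ^ (k + 1))⁻¹ = (g ^ (k + 1))⁻¹ * (g ^ i)⁻¹ := by
      rw [← mul_inv_rev, ← mul_inv_rev, ← pow_add, ← pow_add, add_comm]
    rw [h8, ← mul_assoc] at h7
    have h9 := mul_right_cancel h7
    have h11 : s * g ^ (k + 1) = φ g ^ (k + 1) * s := by
      conv_lhs => rw [h9]
      rw [inv_mul_cancel_right]
    rw [h11, mul_inv_cancel_right]
  have h10 : (s * g * s⁻¹) ^ (k + 1) = φ g ^ (k + 1) := by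
    rw [conj_pow]; exact h4
  exact pow_left_injective (M := F n) (Nat.succ_ne_zero k) h10

end Pool.Agent.Run7.h58.CA
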