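import Mathlib
import Pool.Agent.Run7.h632.CA.Defs

set_option autoImplicit false

namespace Pool.Agent.Run7.h58.CA

open Pool.Agent.Run7.h632.CA

lemma mg_single' (n : ℕ) (g : F n) : mg n (MonoidAlgebra.single g 1) = mu n g := by
  simp [mg]

lemma mu_of (n : ℕ) (i : Fin n) : mu n (FreeGroup.of i) = 1 + Xt i := by
  simp [mu, U, Xt]

theorem t_poly (hmu1 : S_mu1) (hexp : S_expand) (hfox : S_fox) (hleft : S_left) : S_poly := by
  intro n hn φ h hh h0 hcomm
  have hf0 : PowerSeries.coeff 0 (h - 1) = 0 := by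
    rw [map_sub, h0]; simp
  have hHom : Hom (h - 1) := by
    intro j
    rcases Nat.eq_zero_or_pos j with rfl | hj
    · rw [hf0]
      intro m hm
      simp at hm
    · have : PowerSeries.coeff j (h - 1) = PowerSeries.coeff j h := by
        rw [map_sub, PowerSeries.coeff_one, if_neg (by omega), sub_zero]
      rw [this]
      exact hh j
  obtain ⟨a, ha⟩ := (hexp n).1 (h - 1) hHom hf0
  have hh1 : h = 1 + ∑ i, a i * Xt i := by rw [← ha]; abel
  choose d hd using fun j : Fin n => (hfox n).1 (φ (FreeGroup.of j))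
  -- uniqueness of right expansions
  have hrel : ∀ j i : Fin n, mg n (d j i) + mu n (φ (FreeGroup.of j)) * a i - a i -
      (if i = j then h else 0) = 0 := by
    intro j
    apply (hexp n).2
    have h1 := hcomm (FreeGroup.of j)
    rw [mu_of, mul_add, mul_one] at h1
    have h2 : mu n (φ (FreeGroup.of j)) = 1 + ∑ i, mg n (d j i) * Xt i := by
      rw [← hd j]; abel
    have h3 : mu n (φ (FreeGroup.of j)) * h = 1 + ∑ i, mg n (d j i) * Xt i +
        ∑ i, mu n (φ (FreeGroup.of j)) * a i * Xt i := by
      conv_lhs => rw [hh1]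
      rw [mul_add, mul_one, Finset.mul_sum]
      conv_lhs => rw [h2]
      rw [← h2]
      simp only [mul_assoc]
    have h4 : h + h * Xt j = 1 + ∑ i, a i * Xt i + ∑ i, (if i = j then h else 0) * Xt i := by
      rw [← hh1]
      congr 1
      simp
    rw [h3, h4] at h1
    have h5 : ∑ i, (mg n (d j i) + mu n (φ (FreeGroup.of j)) * a i - a i -
        (if i = j then h else 0)) * Xt i =
        (1 + ∑ i, mg n (d j i) * Xt i + ∑ i, mu n (φ (FreeGroup.of j)) * a i * Xt i) -
        (1 + ∑ i, a i * Xt i + ∑ i, (if i = j then h else 0) * Xt i) := by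
      simp only [sub_mul, add_mul, Finset.sum_sub_distrib, Finset.sum_add_distrib]
      abel
    rw [h5, h1, sub_self]
  -- each component is in the range
  have hrange : ∀ i : Fin n, ∃ b, a i = mg n b := by
    intro i
    obtain ⟨j, hji⟩ : ∃ j : Fin n, j ≠ i := by
      haveI : Nontrivial (Fin n) := Fin.nontrivial_iff_two_le.2 hn
      exact exists_ne i
    have h1 := hrel j i
    rw [if_neg (Ne.symm hji), sub_zero] at h1
    have h2 : (mu n (φ (FreeGroup.of j)) - 1) * a i = mg n (- d j i) := by
      rw [map_neg, sub_mul, one_mul]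
      rw [eq_neg_iff_add_eq_zero, ← h1]
      abel
    have h3 : PowerSeries.coeff 0 (mg n (- d j i)) = 0 := by
      have h5 : PowerSeries.coeff 0 (mu n (φ (FreeGroup.of j)) - 1) = 0 := by
        rw [map_sub, (hmu1 n _).2]; simp
      rw [PowerSeries.coeff_zero_eq_constantCoeff_apply] at h5
      rw [← h2, PowerSeries.coeff_zero_eq_constantCoeff_apply, map_mul, h5, zero_mul]
    obtain ⟨c, hc⟩ := (hfox n).2 φ (- d j i) h3
    refine ⟨c j, ?_⟩
    have h4 := hleft n φ (fun k => (if k = j then a i else 0) - mg n (c k)) ?_ j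
    · simpa [sub_eq_zero] using h4
    · simp only [mul_sub, Finset.sum_sub_distrib]
      rw [← hc, ← h2]
      simp
  choose b hb using hrange
  refine ⟨1 + ∑ i, b i * (MonoidAlgebra.single (FreeGroup.of i) 1 - 1), ?_⟩
  rw [map_add, map_one, map_sum]
  rw [hh1]
  congr 1
  refine Finset.sum_congr rfl fun i _ => ?_
  rw [map_mul, map_sub, map_one, mg_single', mu_of, hb i]
  simp

end Pool.Agent.Run7.h58.CA
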