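import Mathlib
import Pool.Agent.Run7.h632.CA.Defs

set_option autoImplicit false

namespace Pool.Agent.Run7.h58.CA

open Pool.Agent.Run7.h632.CA

instance inn_normal (G : Type) [Group G] : (Inn G).Normal where
  conj_mem := by
    rintro _ ⟨g, rfl⟩ φ
    refine ⟨φ g, ?_⟩
    apply MulEquiv.ext
    intro x
    simp [MulAut.conj_apply, MulAut.mul_apply]

/-- the subgroup given by `Nil c` -/
def NilS (hgrp : S_grp) (n c : ℕ) : Subgroup (MulAut (F n)) where
  carrier := {φ | Nil c φ}
  mul_mem' := fun {φ ψ} h1 h2 => (hgrp n).1 c φ ψ h1 h2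
  one_mem' := by
    have := (hgrp n).2.2.1 c 1
    rwa [map_one] at this
  inv_mem' := fun {φ} h => (hgrp n).2.1 c φ h

theorem t_stab (hgrp : S_grp) (hroot : S_root) (hlim : S_lim) (hpoly : S_poly) (hinner : S_inner)
    (hchain : S_chain) : S_stab := by
  intro n hn A hInn hA hcomm
  let N : Subgroup A := (Inn (F n)).subgroupOf A
  haveI : N.Normal := inferInstance
  haveI hAfg : Group.FG A := (Group.fg_iff_subgroup_fg A).2 hA
  letI : CommGroup (A ⧸ N) :=
    { (inferInstance : Group (A ⧸ N)) with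
      mul_comm := by
        intro x y
        induction x using QuotientGroup.induction_on with | H a => ?_
        induction y using QuotientGroup.induction_on with | H b => ?_
        rw [← QuotientGroup.mk_mul, ← QuotientGroup.mk_mul, QuotientGroup.eq]
        have h := hcomm (b : MulAut (F n))⁻¹ (A.inv_mem b.2) (a : MulAut (F n))⁻¹ (A.inv_mem a.2)
        rw [Subgroup.mem_subgroupOf]
        simpa [mul_assoc] using h }
  haveI : Group.FG (A ⧸ N) := QuotientGroup.fg N
  have hNle : ∀ c, Inn (F n) ≤ NilS hgrp n c := by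
    rintro c _ ⟨w, rfl⟩
    exact (hgrp n).2.2.1 c w
  let M : ℕ → Subgroup (A ⧸ N) := fun c =>
    ((NilS hgrp n (c + 1)).subgroupOf A).map (QuotientGroup.mk' N)
  have hmem : ∀ (c : ℕ) (a : A), (QuotientGroup.mk a : A ⧸ N) ∈ M c ↔ Nil (c + 1) (a : MulAut (F n)) := by
    intro c a
    constructor
    · rintro ⟨b, hb, hba⟩
      have h1 : b⁻¹ * a ∈ N := QuotientGroup.eq.1 hba
      have h2 : (b : MulAut (F n))⁻¹ * (a : MulAut (F n)) ∈ Inn (F n) := by
        simpa [N, Subgroup.mem_subgroupOf] using h1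
      have h3 : (a : MulAut (F n)) = b * ((b : MulAut (F n))⁻¹ * a) := by group
      rw [h3]
      exact (NilS hgrp n (c + 1)).mul_mem hb (hNle (c + 1) h2)
    · intro h
      exact ⟨a, h, rfl⟩
  have hanti : Antitone M := by
    intro c c' hcc x hx
    induction x using QuotientGroup.induction_on with | H a => ?_
    rw [hmem] at hx ⊢
    exact (hgrp n).2.2.2.1 (c + 1) (c' + 1) a (by omega) hx
  have hr : ∀ c, ∀ x ∈ M 0, ∀ k : ℕ, 1 ≤ k → x ^ k ∈ M c → x ∈ M c := by
    intro c x hx k hk hxk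
    induction x using QuotientGroup.induction_on with | H a => ?_
    rw [hmem] at hx
    have hxk' : (QuotientGroup.mk (a ^ k) : A ⧸ N) ∈ M c := hxk
    rw [hmem] at hxk' ⊢
    refine hroot n hn (c + 1) k a (by omega) hk ((hgrp n).2.2.2.2 1 a le_rfl hx) ?_
    simpa using hxk'
  have hbot : (⨅ c, M c) = ⊥ := by
    rw [eq_bot_iff]
    intro x hx
    rw [Subgroup.mem_iInf] at hx
    induction x using QuotientGroup.induction_on with | H a => ?_
    have hall : ∀ c, Nil c (a : MulAut (F n)) := by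
      intro c
      exact (hgrp n).2.2.2.1 c (c + 1) a (by omega) ((hmem c a).1 (hx c))
    obtain ⟨h, hh, h0, hcm⟩ := hlim n hn a hall
    obtain ⟨f, rfl⟩ := hpoly n hn a h hh h0 hcm
    have hf : f ≠ 0 := by
      rintro rfl
      simp at h0
    have hin := hinner n a f hf hcm
    rw [Subgroup.mem_bot, QuotientGroup.eq_one_iff]
    simpa [N, Subgroup.mem_subgroupOf] using hin
  obtain ⟨c, hc⟩ := hchain (A ⧸ N) M hanti hr hbot
  refine ⟨c + 1, fun a ha hnil => ?_⟩
  have h1 : (QuotientGroup.mk (⟨a, ha⟩ : A) : A ⧸ N) ∈ M c := (hmem c ⟨a, ha⟩).2 hnil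
  rw [hc, Subgroup.mem_bot, QuotientGroup.eq_one_iff] at h1
  simpa [N, Subgroup.mem_subgroupOf] using h1

end Pool.Agent.Run7.h58.CA
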